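import Pool.Agent.H461.Blk.Fact
import Pool.Graph.R_seed8.W4.QD.Conj
import Pool.Graph.R_pool_sql_team_seeded_2aa45f1a.Q10.KV1

/-!
The abc conjecture for finite subsets of the projective line: the exact exponent of the number of
the rational points with a small truncated counting function, for finite sets of points of degree
at most three over the rational numbers
-/

set_option autoImplicit false

namespace Pool.Agent.Results.MP_4d5ce1_nt.ConjugatesDegreeThree

open NumberField IsDedekindDomain Polynomial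

/-- the absolute logarithmic height of the point `[x : 1]` -/
noncomputable def height {K : Type} [Field K] [NumberField K] (x : K) : ℝ :=
  (∑ w : InfinitePlace K, (w.mult : ℝ) * Real.log (max (w x) (w 1)) +
    ∑ᶠ v : HeightOneSpectrum (RingOfIntegers K),
      Real.log (max (FinitePlace.mk v x) (FinitePlace.mk v 1))) /
    (Module.finrank ℚ K : ℝ)

/-- the truncated counting function of the point `[x : 1]` with respect to the points
`[(α l).1 : (α l).2]`: the sum over the primes outside `T` and over `l` of the truncated local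
heights -/
noncomputable def counting {K : Type} [Field K] [NumberField K]
    (T : Set (HeightOneSpectrum (RingOfIntegers K))) {q : ℕ} (α : Fin q → K × K) (x : K) : ℝ :=
  ∑ᶠ (v : HeightOneSpectrum (RingOfIntegers K)) (_ : v ∉ T),
    ∑ l : Fin q,
      min
        (Real.log
            (max (FinitePlace.mk v x) (FinitePlace.mk v 1) *
              max (FinitePlace.mk v (α l).1) (FinitePlace.mk v (α l).2) /
              FinitePlace.mk v (x * (α l).2 - 1 * (α l).1)) /
          (Module.finrank ℚ K : ℝ))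
        (Real.log (Ideal.absNorm v.asIdeal : ℝ) / (Module.finrank ℚ K : ℝ))

/-- the rational points `x` of height `H(x) ≤ B`, different from the `α_l`, with
`∑_{v ∉ T} ∑_l λ^(1)_v(α_l, x) ≤ log X` -/
def Points {K : Type} [Field K] [NumberField K] (T : Set (HeightOneSpectrum (RingOfIntegers K)))
    {q : ℕ} (α : Fin q → K × K) (X B : ℝ) : Set ℚ :=
  {x : ℚ | (∀ l, (x : K) * (α l).2 - 1 * (α l).1 ≠ 0) ∧ Real.exp (height (x : K)) ≤ B ∧
    counting T α (x : K) ≤ Real.log X}

/-- the rational points `x` of height `H(x) ≤ B`, different from the `α_l`, with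
`∑_{v ∉ T} ∑_l λ^(1)_v(α_l, x) < (q - κ) h(x) + c₀` -/
def exceptional {K : Type} [Field K] [NumberField K]
    (T : Set (HeightOneSpectrum (RingOfIntegers K))) {q : ℕ} (α : Fin q → K × K)
    (κ c₀ B : ℝ) : Set ℚ :=
  {x : ℚ | (∀ l, (x : K) * (α l).2 - 1 * (α l).1 ≠ 0) ∧ Real.exp (height (x : K)) ≤ B ∧
    counting T α (x : K) < (q - κ) * height (x : K) + c₀}

/-- the weight of the form `∑_j f_j X^j Y^(q-j)`: the sum over its irreducible factors over `ℚ` of
the degree if the degree is at most three, and of `2` otherwise -/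
noncomputable def weight (f : ℤ[X]) (q : ℕ) : ℕ :=
  (q - f.natDegree) +
    ((UniqueFactorizationMonoid.normalizedFactors (f.map (Int.castRingHom ℚ))).map
      (fun p => if p.natDegree ≤ 3 then p.natDegree else 2)).sum

open Pool.Agent.W4.CF Pool.Agent.W4.VC Pool.Agent.Q10.KT Pool.Agent.Q10.KV in
theorem points_finite {K : Type} [Field K] [NumberField K]
    (T : Set (HeightOneSpectrum (RingOfIntegers K))) {q : ℕ} (α : Fin q → K × K) (X t : ℝ) :
    (Points T α X t).Finite := by
  obtain ⟨B, hB⟩ : ∃ B : ℤ, B = ⌈t⌉ := ⟨_, rfl⟩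
  refine Set.Finite.of_finite_image (f := fun x : ℚ => ((x.num, (x.den : ℤ)) : ℤ × ℤ)) ?_
    num_inj.injOn
  refine ((Finset.finite_toSet (Finset.Icc (-B) B ×ˢ Finset.Icc (-B) B))).subset ?_
  rintro _ ⟨x, ⟨-, hx, -⟩, rfl⟩
  have h1 : Real.exp (heightK (x : K)) ≤ t := hx
  have h0 : 0 < max |(x.num : ℝ)| |((x.den : ℤ) : ℝ)| := by
    refine lt_of_lt_of_le ?_ (le_max_right _ _)
    have : ((x.den : ℤ) : ℝ) ≠ 0 := by exact_mod_cast x.den_nz
    positivity
  rw [height_rat, Real.exp_log h0] at h1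
  have h2 : max |(x.num : ℝ)| |((x.den : ℤ) : ℝ)| ≤ (B : ℝ) := by
    rw [hB]
    exact h1.trans (Int.le_ceil _)
  have b1 := (le_max_left _ _).trans h2
  have b2 := (le_max_right _ _).trans h2
  rw [Finset.mem_coe, Finset.mem_product, Finset.mem_Icc, Finset.mem_Icc]
  refine ⟨abs_le.mp ?_, abs_le.mp ?_⟩
  · exact_mod_cast b1
  · show |(x.den : ℤ)| ≤ B
    exact_mod_cast b2

open Pool.Agent.W4.CF Pool.Agent.W4.VC Pool.Agent.Q10.KT Pool.Agent.Q10.KV in
/-- **Theorem.** Let `F = ∑_j f_j X^j Y^(q-j)` be a binary form of degree `q ≥ 1` with integral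
coefficients and without multiple factors, such that the number of its zeros in `ℙ¹(ℚ)` is not `1`.
Let `W` be the sum, over the irreducible factors of `F` over `ℚ`, of the degree if it is at most
three and of `2` otherwise. Let `K` be a number field which contains the `q` zeros `α_1, …, α_q` of
`F` and `T` a finite set of primes of `K`.

(1) For every `ε > 0` and all `X, B ≥ 1` at most `C B ^ ε X ^ (2 / W)` rational points `x` of height
`H(x) ≤ B` satisfy `∑_{v ∉ T} ∑_l λ^(1)_v(α_l, x) ≤ log X`.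

(2) For all real `κ ≤ q`, `c₀` and `δ > 0` at most `C B ^ (2 (q - κ) / W + δ)` rational points of
height `H(x) ≤ B` satisfy `∑_{v ∉ T} ∑_l λ^(1)_v(α_l, x) < (q - κ) h(x) + c₀`.

(3) For large `X` at least `c X ^ (2 / q)` rational points of height `H(x) ≤ X ^ (1 / q)` satisfy
`∑_{v ∉ T} ∑_l λ^(1)_v(α_l, x) ≤ log X`.

(4) If the zeros of `F` have degree at most three over `ℚ`, then `W = q`. -/
theorem result (K : Type) [Field K] [NumberField K]
    (T : Set (HeightOneSpectrum (RingOfIntegers K))) (hT : T.Finite)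
    (f : ℤ[X]) (q : ℕ) (hq : 1 ≤ q) (hsq : Squarefree (f.map (Int.castRingHom ℚ)))
    (hdeg : f.natDegree ≤ q ∧ q ≤ f.natDegree + 1)
    (hrat : (f.map (Int.castRingHom ℚ)).roots.card + (q - f.natDegree) ≠ 1)
    (α : Fin q → K × K) (hα0 : ∀ i, α i ≠ 0)
    (hα : ∀ i j, i ≠ j → (α i).1 * (α j).2 - (α i).2 * (α j).1 ≠ 0)
    (hF : ∀ i, ∑ j ∈ Finset.range (q + 1), (f.coeff j : K) *
      (α i).1 ^ j * (α i).2 ^ (q - j) = 0) :
    (∀ ε : ℝ, 0 < ε → ∃ C : ℝ, ∀ X B : ℝ, 1 ≤ X → 1 ≤ B → (Points T α X B).Finite ∧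
      ((Points T α X B).ncard : ℝ) ≤ C * B ^ ε * X ^ (2 / (weight f q : ℝ))) ∧
    (∀ κ c₀ δ : ℝ, κ ≤ q → 0 < δ → ∃ C : ℝ, ∀ B : ℝ, 1 ≤ B →
      (exceptional T α κ c₀ B).Finite ∧
      ((exceptional T α κ c₀ B).ncard : ℝ) ≤ C * B ^ (2 * (q - κ) / (weight f q : ℝ) + δ)) ∧
    (∃ c : ℝ, 0 < c ∧ ∃ X₀ : ℝ, ∀ X : ℝ, X₀ ≤ X →
      c * X ^ (2 / (q : ℝ)) ≤ ((Points T α X (X ^ (1 / (q : ℝ)))).ncard : ℝ)) ∧
    ((∀ p : ℚ[X], Irreducible p → p ∣ f.map (Int.castRingHom ℚ) → p.natDegree ≤ 3) →
      weight f q = q) := by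
  classical
  have hf0 : f ≠ 0 := by
    rintro h0
    have := hsq.ne_zero
    rw [h0, Polynomial.map_zero] at this
    exact this rfl
  have hS : Sqf f q := ⟨hsq, hdeg.1, hdeg.2⟩
  obtain ⟨m, hm, hrad⟩ := rat_radp T hT α hα0 hα f hf0 hdeg.1 hF
  have hB : Pool.Agent.H461.Blk.Bdd f q ((weight f q : ℝ) / 2) :=
    Pool.Agent.H461.Blk.form_main f q hq hS hrat
  have part1 : ∀ ε : ℝ, 0 < ε → ∃ C : ℝ, 0 < C ∧ ∀ X B : ℝ, 1 ≤ X → 1 ≤ B →
      (Points T α X B).Finite ∧
      ((Points T α X B).ncard : ℝ) ≤ C * B ^ ε * X ^ (2 / (weight f q : ℝ)) := by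
    intro ε hε
    obtain ⟨C, hC, hmain⟩ := hB ε hε
    refine ⟨C * (m : ℝ) ^ ε, by positivity, fun X B hX hB => ⟨points_finite T α X B, ?_⟩⟩
    have hX0 : 0 < X := by linarith
    have hB0 : 0 < B := by linarith
    have hfin := points_finite T α X B
    rw [Set.ncard_eq_toFinset_card _ hfin,
      ← Finset.card_image_of_injective _ num_inj]
    have h1 := hmain m B X hm hB hX
      (hfin.toFinset.image fun x : ℚ => ((x.num, (x.den : ℤ)) : ℤ × ℤ)) (by
      intro p hp
      obtain ⟨x, hx, rfl⟩ := Finset.mem_image.mp hp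
      rw [Set.Finite.mem_toFinset] at hx
      obtain ⟨hx1, hx2, hx3⟩ := hx
      obtain ⟨c1, c2, c3⟩ := hrad X hX x ⟨hx1, hx3⟩
      have h1 : Real.exp (heightK (x : K)) ≤ B := hx2
      have h0 : 0 < max |(x.num : ℝ)| |((x.den : ℤ) : ℝ)| := by
        refine lt_of_lt_of_le ?_ (le_max_right _ _)
        have : ((x.den : ℤ) : ℝ) ≠ 0 := by exact_mod_cast x.den_nz
        positivity
      rw [height_rat, Real.exp_log h0] at h1
      exact ⟨c1, (le_max_left _ _).trans h1, (le_max_right _ _).trans h1, c2, c3⟩)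
    refine h1.trans (le_of_eq ?_)
    rw [Real.mul_rpow (Nat.cast_nonneg _) hB0.le, one_div_div]
    ring
  refine ⟨fun ε hε => ?_, fun κ c₀ δ hκ hδ => ?_, ?_, ?_⟩
  · obtain ⟨C, -, h⟩ := part1 ε hε
    exact ⟨C, h⟩
  · obtain ⟨C, hC, h⟩ := part1 δ hδ
    set lam : ℝ := q - κ with hlam
    have hlam0 : 0 ≤ lam := by rw [hlam]; linarith
    set C0 : ℝ := max 1 (Real.exp c₀) with hC0
    have hC01 : 1 ≤ C0 := le_max_left _ _
    refine ⟨C * C0 ^ (2 / (weight f q : ℝ)), fun B hB => ?_⟩
    have hB0 : 0 < B := by linarith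
    have hBl : 1 ≤ B ^ lam := Real.one_le_rpow hB hlam0
    have hR1 : 1 ≤ C0 * B ^ lam := one_le_mul_of_one_le_of_one_le hC01 hBl
    obtain ⟨h1, h2⟩ := h (C0 * B ^ lam) B hR1 hB
    have hsub : exceptional T α κ c₀ B ⊆ Points T α (C0 * B ^ lam) B := by
      rintro x ⟨hx1, hx2, hx3⟩
      refine ⟨hx1, hx2, ?_⟩
      have h3 : height (x : K) ≤ Real.log B := (Real.le_log_iff_exp_le hB0).mpr hx2
      have h4 : Real.log (C0 * B ^ lam) = Real.log C0 + lam * Real.log B := by
        rw [Real.log_mul (by positivity) (by positivity), Real.log_rpow hB0]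
      have h5 : c₀ ≤ Real.log C0 :=
        (Real.le_log_iff_exp_le (by positivity)).mpr (le_max_right _ _)
      rw [h4]
      have h6 : lam * height (x : K) ≤ lam * Real.log B := by gcongr
      have h7 : counting T α (x : K) < lam * height (x : K) + c₀ := hx3
      linarith
    refine ⟨h1.subset hsub, ?_⟩
    have h8 : ((exceptional T α κ c₀ B).ncard : ℝ) ≤ ((Points T α (C0 * B ^ lam) B).ncard : ℝ) := by
      exact_mod_cast Set.ncard_le_ncard hsub h1
    refine h8.trans (h2.trans (le_of_eq ?_))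
    rw [Real.mul_rpow (by linarith) (by positivity), ← Real.rpow_mul hB0.le, Real.rpow_add hB0]
    have e : lam * (2 / (weight f q : ℝ)) = 2 * lam / (weight f q : ℝ) := by ring
    rw [e]
    ring
  · obtain ⟨c, hc, X₀, hX₀, hmain⟩ := many T hq α hα0
    refine ⟨c, hc, X₀, fun X hX => hmain X hX _ (points_finite T α X _) ?_⟩
    intro x hx1 hx2
    refine ⟨hx1.1, ?_, hx1.2⟩
    have hX0 : 0 < X := by linarith
    have h3 : height (x : K) ≤ Real.log X / q := hx2
    calc Real.exp (height (x : K)) ≤ Real.exp (Real.log X / q) := Real.exp_le_exp.mpr h3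
      _ = X ^ (1 / (q : ℝ)) := by
        rw [Real.rpow_def_of_pos hX0]
        congr 1
        ring
  · intro h3
    unfold weight
    have hP0 : f.map (Int.castRingHom ℚ) ≠ 0 := hsq.ne_zero
    have e1 : (UniqueFactorizationMonoid.normalizedFactors (f.map (Int.castRingHom ℚ))).map
        (fun p => if p.natDegree ≤ 3 then p.natDegree else 2) =
        (UniqueFactorizationMonoid.normalizedFactors (f.map (Int.castRingHom ℚ))).map natDegree :=
      Multiset.map_congr rfl (fun p hp => by
        rw [if_pos (h3 p (UniqueFactorizationMonoid.irreducible_of_normalized_factor p hp)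
          (UniqueFactorizationMonoid.dvd_of_mem_normalizedFactors hp))])
    rw [e1]
    obtain ⟨u, hu⟩ := UniqueFactorizationMonoid.prod_normalizedFactors hP0
    obtain ⟨t, ht, hut⟩ := Polynomial.isUnit_iff.mp u.isUnit
    rw [← hut] at hu
    have e2 : (UniqueFactorizationMonoid.normalizedFactors (f.map (Int.castRingHom ℚ))).prod.natDegree =
        ((UniqueFactorizationMonoid.normalizedFactors (f.map (Int.castRingHom ℚ))).map
          natDegree).sum :=
      natDegree_multiset_prod _ (UniqueFactorizationMonoid.zero_notMem_normalizedFactors _)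
    have e3 : f.natDegree = (UniqueFactorizationMonoid.normalizedFactors
        (f.map (Int.castRingHom ℚ))).prod.natDegree := by
      rw [← natDegree_map_eq_of_injective (RingHom.injective_int (Int.castRingHom ℚ)) f]
      conv_lhs => rw [← hu]
      rw [mul_comm, natDegree_C_mul ht.ne_zero]
    rw [← e2, ← e3]
    have := hdeg.1
    omega

end Pool.Agent.Results.MP_4d5ce1_nt.ConjugatesDegreeThree
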