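import Pool.Agent.H461.Low.Up
import Pool.Agent.H461.Low.Low
import Pool.Agent.H461.Low.CntUp
import Pool.Graph.R_pool_sql_team_seeded_2aa45f1a.Q10.KV1

/-!
The abc conjecture for finite subsets of the projective line: the exact exponent of the number of
the rational points close to a given point, at the real and at finitely many finite places, with a
truncated counting function smaller than `(q - κ) h(x) + c`
-/

set_option autoImplicit false

namespace Pool.Agent.Results.MP_4d5ce1_nt.ExceptionsNearEveryPoint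

open NumberField IsDedekindDomain Polynomial

/-- the absolute logarithmic height of the point `[x : 1]` -/
noncomputable def height {K : Type} [Field K] [NumberField K] (x : K) : ℝ :=
  (∑ w : InfinitePlace K, (w.mult : ℝ) * Real.log (max (w x) (w 1)) +
    ∑ᶠ v : HeightOneSpectrum (RingOfIntegers K),
      Real.log (max (FinitePlace.mk v x) (FinitePlace.mk v 1))) /
    (Module.finrank ℚ K : ℝ)

/-- the truncated counting function of the point `[x : 1]` with respect to the points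
`[(α l).1 : (α l).2]`: the sum over the primes outside `T` and over `l` of the truncated local
heights -/
noncomputable def counting {K : Type} [Field K] [NumberField K]
    (T : Set (HeightOneSpectrum (RingOfIntegers K))) {q : ℕ} (α : Fin q → K × K) (x : K) : ℝ :=
  ∑ᶠ (v : HeightOneSpectrum (RingOfIntegers K)) (_ : v ∉ T),
    ∑ l : Fin q,
      min
        (Real.log
            (max (FinitePlace.mk v x) (FinitePlace.mk v 1) *
              max (FinitePlace.mk v (α l).1) (FinitePlace.mk v (α l).2) /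
              FinitePlace.mk v (x * (α l).2 - 1 * (α l).1)) /
          (Module.finrank ℚ K : ℝ))
        (Real.log (Ideal.absNorm v.asIdeal : ℝ) / (Module.finrank ℚ K : ℝ))

/-- the rational points `x` of height `H(x) ≤ B`, different from the `α_l`, with
`∑_{v ∉ T} ∑_l λ^(1)_v(α_l, x) < (q - κ) h(x) + c₀` -/
def exceptional {K : Type} [Field K] [NumberField K]
    (T : Set (HeightOneSpectrum (RingOfIntegers K))) {q : ℕ} (α : Fin q → K × K)
    (κ c₀ B : ℝ) : Set ℚ :=
  {x : ℚ | (∀ l, (x : K) * (α l).2 - 1 * (α l).1 ≠ 0) ∧ Real.exp (height (x : K)) ≤ B ∧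
    counting T α (x : K) < (q - κ) * height (x : K) + c₀}

/-- the rational numbers with distance less than `η` from `t₀`, whose numerators and denominators
are congruent to those of `t₀` modulo `Q` -/
def close (t₀ : ℚ) (Q : ℕ) (η : ℝ) : Set ℚ :=
  {x : ℚ | |(x : ℝ) - t₀| < η ∧ (Q : ℤ) ∣ x.num - t₀.num ∧ (Q : ℤ) ∣ (x.den : ℤ) - t₀.den}

open Pool.Agent.W4.CF Pool.Agent.W4.VC Pool.Agent.Q10.KT Pool.Agent.Q10.KV in
theorem exceptional_finite {K : Type} [Field K] [NumberField K]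
    (T : Set (HeightOneSpectrum (RingOfIntegers K))) {q : ℕ} (α : Fin q → K × K) (κ c₀ t : ℝ) :
    (exceptional T α κ c₀ t).Finite := by
  obtain ⟨B, hB⟩ : ∃ B : ℤ, B = ⌈t⌉ := ⟨_, rfl⟩
  refine Set.Finite.of_finite_image (f := fun x : ℚ => ((x.num, (x.den : ℤ)) : ℤ × ℤ)) ?_
    num_inj.injOn
  refine ((Finset.finite_toSet (Finset.Icc (-B) B ×ˢ Finset.Icc (-B) B))).subset ?_
  rintro _ ⟨x, ⟨-, hx, -⟩, rfl⟩
  have h1 : Real.exp (heightK (x : K)) ≤ t := hx
  have h0 : 0 < max |(x.num : ℝ)| |((x.den : ℤ) : ℝ)| := by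
    refine lt_of_lt_of_le ?_ (le_max_right _ _)
    have : ((x.den : ℤ) : ℝ) ≠ 0 := by exact_mod_cast x.den_nz
    positivity
  rw [height_rat, Real.exp_log h0] at h1
  have h2 : max |(x.num : ℝ)| |((x.den : ℤ) : ℝ)| ≤ (B : ℝ) := by
    rw [hB]
    exact h1.trans (Int.le_ceil _)
  have b1 := (le_max_left _ _).trans h2
  have b2 := (le_max_right _ _).trans h2
  rw [Finset.mem_coe, Finset.mem_product, Finset.mem_Icc, Finset.mem_Icc]
  refine ⟨abs_le.mp ?_, abs_le.mp ?_⟩
  · exact_mod_cast b1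
  · show |(x.den : ℤ)| ≤ B
    exact_mod_cast b2

open Pool.Agent.W4.CF Pool.Agent.W4.VC Pool.Agent.Q10.KT Pool.Agent.Q10.KV in
/-- the form vanishes only at the points -/
theorem hom_iff {K : Type} [Field K] [NumberField K] {q : ℕ}
    (α : Fin q → K × K) (hα0 : ∀ i, α i ≠ 0)
    (hα : ∀ i j, i ≠ j → (α i).1 * (α j).2 - (α i).2 * (α j).1 ≠ 0) (f : ℤ[X]) (hf0 : f ≠ 0)
    (hfq : f.natDegree ≤ q)
    (hF : ∀ i, ∑ j ∈ Finset.range (q + 1), (f.coeff j : K) * (α i).1 ^ j * (α i).2 ^ (q - j) = 0)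
    (x : ℚ) : (∀ l, (x : K) * (α l).2 - 1 * (α l).1 ≠ 0) ↔ hom f q x.num (x.den : ℤ) ≠ 0 := by
  have hinjK : Function.Injective (Int.castRingHom K) := Int.cast_injective
  obtain ⟨c, hc, hfac⟩ := Pool.Agent.W462.QD.fac α hα0 hα (f.map (Int.castRingHom K))
    ((Polynomial.map_ne_zero_iff hinjK).mpr hf0)
    ((natDegree_map_le).trans hfq) (by
      intro i
      have := hF i
      unfold Pool.Agent.W462.QD.hK
      simpa [coeff_map] using this)
  have h1 := hfac (x.num : K) (x.den : K)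
  have h4 : Pool.Agent.W462.QD.hK (f.map (Int.castRingHom K)) q (x.num : K) (x.den : K) =
      ((hom f q x.num (x.den : ℤ) : ℤ) : K) := by
    unfold hom Pool.Agent.W462.QD.hK
    push_cast
    simp [coeff_map]
  rw [h4] at h1
  have hd : (x.den : K) ≠ 0 := by exact_mod_cast x.den_nz
  have e : (x : K) = (x.num : K) / (x.den : K) := Rat.cast_def x
  have key : ∀ l, (x : K) * (α l).2 - 1 * (α l).1 =
      ((x.num : K) * (α l).2 - (x.den : K) * (α l).1) / (x.den : K) := by
    intro l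
    rw [e]
    field_simp
  constructor
  · intro hx h0
    rw [h0, Int.cast_zero] at h1
    rcases mul_eq_zero.mp h1.symm with h6 | h6
    · exact hc h6
    · obtain ⟨l, -, hl⟩ := Finset.prod_eq_zero_iff.mp h6
      apply hx l
      rw [key, hl, zero_div]
  · intro h0 l hl
    rw [key] at hl
    have h2 : (x.num : K) * (α l).2 - (x.den : K) * (α l).1 = 0 :=
      (div_eq_zero_iff.mp hl).resolve_right hd
    rw [Finset.prod_eq_zero (Finset.mem_univ l) h2, mul_zero] at h1
    exact h0 (by exact_mod_cast h1)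

open Pool.Agent.W4.CF Pool.Agent.W4.VC Pool.Agent.Q10.KT Pool.Agent.Q10.KV in
/-- **Theorem.** Let `F = ∑_j f_j X^j Y^(q-j)` be a binary form of degree `q ≥ 3` with integral
coefficients and without multiple factors. Let `K` be a number field which contains the `q` zeros
`α_1, …, α_q` of `F`, and `T` a finite set of primes of `K`. Let `0 ≤ κ`, `c₀` be real.

(1) Let `κ < 2`. Close to every rational number `t₀` which is not a zero of `F`, the number of the
rational points `x` of height `H(x) ≤ B` with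
`∑_{v ∉ T} ∑_l λ^(1)_v(α_l, x) < (q - κ) h(x) + c₀` is at least `c B ^ (2 - κ)` for large `B`;
here `x` is close to `t₀` if `|x - t₀| < η` and the numerators and denominators of `x` and `t₀`
are congruent modulo `Q`, with any `η > 0` and `Q ≥ 1`.

(2) If the zeros of `F` have degree at most three over `ℚ` and `κ ≤ 2 / 3`, or if `F` is an
irreducible cubic form and `κ ≤ 4 / 5`, then the number of all rational points `x` of height
`H(x) ≤ B` with `∑_{v ∉ T} ∑_l λ^(1)_v(α_l, x) < (q - κ) h(x) + c₀` is at most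
`C B ^ (2 - κ + δ)`, for every `δ > 0` and all `B ≥ 1`. -/
theorem result (K : Type) [Field K] [NumberField K]
    (T : Set (HeightOneSpectrum (RingOfIntegers K))) (hT : T.Finite)
    (f : ℤ[X]) (q : ℕ) (hq : 3 ≤ q) (hsq : Squarefree (f.map (Int.castRingHom ℚ)))
    (hdeg : f.natDegree ≤ q ∧ q ≤ f.natDegree + 1)
    (α : Fin q → K × K) (hα0 : ∀ i, α i ≠ 0)
    (hα : ∀ i j, i ≠ j → (α i).1 * (α j).2 - (α i).2 * (α j).1 ≠ 0)
    (hF : ∀ i, ∑ j ∈ Finset.range (q + 1), (f.coeff j : K) *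
      (α i).1 ^ j * (α i).2 ^ (q - j) = 0)
    (κ c₀ : ℝ) (hκ : 0 ≤ κ) :
    (κ < 2 → ∀ t₀ : ℚ, (∀ l, (t₀ : K) * (α l).2 - 1 * (α l).1 ≠ 0) → ∀ (Q : ℕ) (η : ℝ),
      1 ≤ Q → 0 < η → ∃ c : ℝ, 0 < c ∧ ∃ B₀ : ℝ, ∀ B : ℝ, B₀ ≤ B →
        c * B ^ (2 - κ) ≤ ((exceptional T α κ c₀ B ∩ close t₀ Q η).ncard : ℝ)) ∧
    ((((∀ p : ℚ[X], Irreducible p → p ∣ f.map (Int.castRingHom ℚ) → p.natDegree ≤ 3) ∧
        κ ≤ 2 / 3) ∨
      (q = 3 ∧ f.natDegree = 3 ∧ Irreducible (f.map (Int.castRingHom ℚ)) ∧ κ ≤ 4 / 5)) →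
      ∀ δ : ℝ, 0 < δ → ∃ C : ℝ, ∀ B : ℝ, 1 ≤ B → (exceptional T α κ c₀ B).Finite ∧
        ((exceptional T α κ c₀ B).ncard : ℝ) ≤ C * B ^ (2 - κ + δ)) := by
  classical
  have hf0 : f ≠ 0 := by
    rintro h0
    have := hsq.ne_zero
    rw [h0, Polynomial.map_zero] at this
    exact this rfl
  have hS : Sqf f q := ⟨hsq, hdeg.1, hdeg.2⟩
  have hiff := hom_iff α hα0 hα f hf0 hdeg.1 hF
  have hhom : ∀ x y : ℤ, Pool.Agent.Y670.RD.fv q f x y = hom f q x y := fun x y => rfl
  have hmaxpos : ∀ x : ℚ, 1 ≤ max |(x.num : ℝ)| |((x.den : ℤ) : ℝ)| := by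
    intro x
    refine le_trans ?_ (le_max_right _ _)
    have h1 : (1 : ℤ) ≤ |(x.den : ℤ)| := Int.one_le_abs (by exact_mod_cast x.den_nz)
    exact_mod_cast h1
  have hht : ∀ x : ℚ, height (x : K) = Real.log (max |(x.num : ℝ)| |((x.den : ℤ) : ℝ)|) :=
    fun x => height_rat (K := K) x
  refine ⟨fun hκ2 t₀ ht₀ Q η hQ hη => ?_, fun hcase δ hδ => ?_⟩
  · -- the lower bound
    obtain ⟨C, -, hcnt⟩ := Pool.Agent.H461.Low.cnt_up T α hα0 hα f hf0 hdeg.1 hF
    have h0 : aeval (t₀ : ℝ) f ≠ 0 := by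
      intro h1
      have h2 := (hiff t₀).mp ht₀
      apply h2
      have h3 : (Pool.Agent.Y670.RD.fv q f t₀.num (t₀.den : ℤ) : ℝ) =
          (((t₀.den : ℤ)) : ℝ) ^ q * aeval ((t₀.num : ℝ) / ((t₀.den : ℤ) : ℝ)) f :=
        Pool.Agent.Y670.RD.fv_eq hdeg.1 (by exact_mod_cast t₀.den_nz)
      have h4 : (t₀ : ℝ) = (t₀.num : ℝ) / ((t₀.den : ℤ) : ℝ) := by
        push_cast
        exact Rat.cast_def t₀
      rw [← h4, h1, mul_zero, hhom] at h3
      exact_mod_cast h3
    obtain ⟨c, B₀, hc, hlow⟩ := Pool.Agent.H461.Low.low f q hsq (by omega) hdeg.1 t₀ h0 Q hQ η hη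
      κ hκ hκ2 (Real.exp (c₀ - C - 1)) (Real.exp_pos _)
    refine ⟨c, hc, B₀, fun B hB => ?_⟩
    obtain ⟨S, hSc, hSp⟩ := hlow B hB
    refine hSc.trans ?_
    have hfin : (exceptional T α κ c₀ B ∩ close t₀ Q η).Finite :=
      (exceptional_finite T α κ c₀ B).inter_of_left _
    have hnd : ∀ p ∈ S, ((p.1 : ℚ) / (p.2 : ℚ)).num = p.1 ∧
        (((p.1 : ℚ) / (p.2 : ℚ)).den : ℤ) = p.2 := by
      intro p hp
      obtain ⟨h1, h2, -⟩ := hSp p hp
      have hcop : Nat.Coprime p.1.natAbs p.2.natAbs := Int.isCoprime_iff_gcd_eq_one.mp h1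
      exact ⟨Rat.num_div_eq_of_coprime h2 hcop, Rat.den_div_eq_of_coprime h2 hcop⟩
    have himg : ∀ p ∈ S, ((p.1 : ℚ) / (p.2 : ℚ)) ∈ exceptional T α κ c₀ B ∩ close t₀ Q η := by
      intro p hp
      obtain ⟨h1, h2, h3, h4, h5, h6, h7, h8⟩ := hSp p hp
      obtain ⟨e1, e2⟩ := hnd p hp
      obtain ⟨x, hx⟩ : ∃ x : ℚ, x = (p.1 : ℚ) / (p.2 : ℚ) := ⟨_, rfl⟩
      rw [← hx] at e1 e2 ⊢
      have hx0 : hom f q x.num (x.den : ℤ) ≠ 0 := by
        rw [e1, e2, ← hhom]
        exact h7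
      have hxK : (x : K) = ((p.1 : ℤ) : K) / ((p.2 : ℤ) : K) := by
        rw [hx]
        push_cast
        rfl
      have hxR : (x : ℝ) = (p.1 : ℝ) / (p.2 : ℝ) := by
        rw [hx]
        push_cast
        rfl
      have hm := hmaxpos x
      rw [e1, e2] at hm
      have hm0 : 0 < max |(p.1 : ℝ)| |(p.2 : ℝ)| := by linarith
      refine ⟨⟨(hiff x).mpr hx0, ?_, ?_⟩, ?_, ?_, ?_⟩
      · rw [hht, e1, e2, Real.exp_log hm0]
        exact h6
      · rw [hht, e1, e2]
        have g1 := hcnt p.1 p.2 h1 h2.ne' (by rw [← hhom]; exact h7)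
        rw [← hxK, ← hhom] at g1
        have g2 : counting T α (x : K) = countingK T α (x : K) := rfl
        rw [g2]
        have g3 : ∑ l ∈ (Pool.Agent.Y670.RD.fv q f p.1 p.2).natAbs.primeFactors,
            Real.log (l : ℝ) = Real.log (∏ l ∈
              (Pool.Agent.Y670.RD.fv q f p.1 p.2).natAbs.primeFactors, (l : ℝ)) := by
          rw [Real.log_prod]
          intro l hl
          exact_mod_cast (Nat.prime_of_mem_primeFactors hl).ne_zero
        have g4 : 0 < ∏ l ∈ (Pool.Agent.Y670.RD.fv q f p.1 p.2).natAbs.primeFactors, (l : ℝ) :=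
          Finset.prod_pos fun l hl => by
            exact_mod_cast (Nat.prime_of_mem_primeFactors hl).pos
        have g5 := Real.log_le_log g4 h8
        rw [Real.log_mul (Real.exp_pos _).ne' (by positivity), Real.log_exp,
          Real.log_rpow hm0] at g5
        rw [g3] at g1
        linarith
      · show |(x : ℝ) - t₀| < η
        rw [hxR]
        exact h3
      · show (Q : ℤ) ∣ x.num - t₀.num
        rw [e1]
        exact h4
      · show (Q : ℤ) ∣ (x.den : ℤ) - t₀.den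
        rw [e2]
        exact h5
    have hinj : Set.InjOn (fun p : ℤ × ℤ => (p.1 : ℚ) / (p.2 : ℚ)) (S : Set (ℤ × ℤ)) := by
      intro p hp p' hp' h
      obtain ⟨e1, e2⟩ := hnd p hp
      obtain ⟨e3, e4⟩ := hnd p' hp'
      simp only at h
      rw [h] at e1 e2
      exact Prod.ext (e1.symm.trans e3) (e2.symm.trans e4)
    rw [Set.ncard_eq_toFinset_card _ hfin, ← Finset.card_image_of_injOn hinj]
    refine Nat.cast_le.mpr (Finset.card_le_card ?_)
    intro x hx
    obtain ⟨p, hp, rfl⟩ := Finset.mem_image.mp hx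
    exact hfin.mem_toFinset.mpr (himg p hp)
  · -- the upper bound
    obtain ⟨m, hm, hrad⟩ := rat_radp T hT α hα0 hα f hf0 hdeg.1 hF
    have hq3 : (3 : ℝ) ≤ q := by exact_mod_cast hq
    have hκ1 : κ ≤ 4 / 5 := by
      rcases hcase with h | h
      · linarith [h.2]
      · exact h.2.2.2
    have hdy : Pool.Agent.H461.Low.Dyad f q κ := by
      rcases hcase with ⟨h3, h4⟩ | ⟨h1, h2, h3, h4⟩
      · exact Pool.Agent.H461.Low.dyad_main f q (by omega) hS h3 κ hκ h4
      · subst h1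
        exact Pool.Agent.H461.Low.dyad_cubic f h2 h3 κ hκ h4
    obtain ⟨A, hA⟩ : ∃ A : ℝ, A = max 1 (Real.exp c₀) := ⟨_, rfl⟩
    have hA1 : 1 ≤ A := by rw [hA]; exact le_max_left _ _
    have hA0 : 0 < A := by linarith
    have hAc : c₀ ≤ Real.log A := by
      rw [Real.le_log_iff_exp_le hA0, hA]
      exact le_max_right _ _
    obtain ⟨C, -, hup⟩ := Pool.Agent.H461.Low.up f q κ (by linarith) (by linarith) hdy A hA1 m hm
      δ hδ
    refine ⟨C, fun B hB => ⟨exceptional_finite T α κ c₀ B, ?_⟩⟩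
    have hfin := exceptional_finite T α κ c₀ B
    rw [Set.ncard_eq_toFinset_card _ hfin, ← Finset.card_image_of_injective _ num_inj]
    apply hup B hB
    intro p hp
    obtain ⟨x, hx, rfl⟩ := Finset.mem_image.mp hp
    rw [Set.Finite.mem_toFinset] at hx
    obtain ⟨hx1, hx2, hx3⟩ := hx
    have hm1 := hmaxpos x
    have hm0 : 0 < max |(x.num : ℝ)| |((x.den : ℤ) : ℝ)| := by linarith
    rw [hht, Real.exp_log hm0] at hx2
    have hX1 : 1 ≤ A * (max |(x.num : ℝ)| |((x.den : ℤ) : ℝ)|) ^ ((q : ℝ) - κ) :=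
      one_le_mul_of_one_le_of_one_le hA1 (Real.one_le_rpow hm1 (by linarith))
    obtain ⟨c1, c2, c3⟩ := hrad _ hX1 x ⟨hx1, by
      rw [hht] at hx3
      rw [Real.log_mul hA0.ne' (by positivity), Real.log_rpow hm0]
      have g2 : counting T α (x : K) = countingK T α (x : K) := rfl
      rw [g2] at hx3
      linarith⟩
    exact ⟨c1, (le_max_left _ _).trans hx2, (le_max_right _ _).trans hx2, c2, c3⟩

end Pool.Agent.Results.MP_4d5ce1_nt.ExceptionsNearEveryPoint
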