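import Pool.Agent.H420.LC.Link

/-!
# The abc conjecture for all finite subsets of the projective line over `K` follows from the
inequality for one finite set `α_1, …, α_q`, at the points which are close to `α_1` at finitely
many places and whose cross ratio is a value of a given Belyi map at an almost cube

`AllPoints K` is Q1 for the number field `K`: the truncated inequality for all finite sets `S` of
places, all `q` pairwise distinct points `α_1, …, α_q` of `ℙ¹(K)` and all points `x` of `ℙ¹(K)`.

The theorem is about an arbitrary single choice of `S`, of `q ≥ 3` and of `α_1, …, α_q`. Let `W` be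
a finite set of places of `K`, archimedean or not, let `δ > 0`, and let `t(x)` be the cross ratio
of `x` with three of the points, which is `0`, `1`, `∞` at `α_{i₀}`, `α_{i₁}`, `α_{i₂}`. It is
enough to have the inequality at the points `x` which are close to `α_{i₀}` at all places of `W`
and for which `t(x) = f(u)`, where `f` is a given Belyi map, and `u = e y³`, `1 - u = (1 - e) z³`
with `e` of small height.
-/

set_option autoImplicit false

namespace Pool.Agent.Results.MP_4d5ce1_nt.NearOnePointSuffices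

open Polynomial IsDedekindDomain NumberField

variable {K : Type} [Field K] [NumberField K]

/-- The absolute logarithmic height of the point `[x_0 : x_1]`. -/
noncomputable def height (x : Fin 2 → K) : ℝ := Height.logHeight x / Module.finrank ℚ K

/-- The determinant `u_0 v_1 - u_1 v_0`. -/
def det (u v : Fin 2 → K) : K := u 0 * v 1 - u 1 * v 0

/-- The local height `λ_v(a, x)` is positive: the points `x` and `a` coincide modulo `v`. -/
def Meet (a x : Fin 2 → K) (v : HeightOneSpectrum (𝓞 K)) : Prop :=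
  v.valuation K (det x a) <
    max (v.valuation K (x 0)) (v.valuation K (x 1)) *
      max (v.valuation K (a 0)) (v.valuation K (a 1))

open Classical in
/-- The truncated local height `λ_v^{(1)}(a, x)`: it is `log N(v) / [K : ℚ]` if `x` and `a`
coincide modulo `v`, and `0` otherwise. -/
noncomputable def truncatedLocalHeight (a x : Fin 2 → K) (v : HeightOneSpectrum (𝓞 K)) : ℝ :=
  if Meet a x v then Real.log (Ideal.absNorm v.asIdeal) / Module.finrank ℚ K else 0

open Classical in
/-- The sum of the truncated local heights `λ_v^{(1)}(α_l, x)` over the primes `v` which are not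
in `S` and over all `l`. -/
noncomputable def counting (S : Finset (HeightOneSpectrum (𝓞 K))) {q : ℕ}
    (α : Fin q → Fin 2 → K) (x : Fin 2 → K) : ℝ :=
  ∑ᶠ v : HeightOneSpectrum (𝓞 K), if v ∈ S then 0 else ∑ l, truncatedLocalHeight (α l) x v

/-- The inequality of Q1 for the points `α_1, …, α_q` and the points `x` in the set `T`: for every
`ε > 0` there is `C` such that `(q - 2 - ε) h(x) ≤ ∑_{v ∉ S} ∑_l λ_v^{(1)}(α_l, x) + C` for all
`x` in `T` different from all `α_l`. -/
def Inequality (S : Finset (HeightOneSpectrum (𝓞 K))) {q : ℕ} (α : Fin q → Fin 2 → K)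
    (T : Set (Fin 2 → K)) : Prop :=
  ∀ ε : ℝ, 0 < ε → ∃ C : ℝ, ∀ x ∈ T, x ≠ 0 → (∀ l, det x (α l) ≠ 0) →
    ((q : ℝ) - 2 - ε) * height x ≤ counting S α x + C

/-- Q1 for the number field `K`. -/
def AllPoints (K : Type) [Field K] [NumberField K] : Prop :=
  ∀ (S : Finset (HeightOneSpectrum (𝓞 K))) (q : ℕ) (α : Fin q → Fin 2 → K), (∀ l, α l ≠ 0) →
    (∀ i j, i ≠ j → det (α i) (α j) ≠ 0) → Inequality S α Set.univ

/-- The cross ratio of `x` with `a, b, c`: it is `0` at `a`, `1` at `b` and `∞` at `c`. -/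
noncomputable def crossRatio (a b c x : Fin 2 → K) : K :=
  (det x a * det b c) / (det x c * det b a)

/-- `x` is close to `a` at all places of `W`: the chordal distance is less than `δ`. -/
def Close (W : Finset (AbsoluteValue K ℝ)) (δ : ℝ) (a x : Fin 2 → K) : Prop :=
  ∀ w ∈ W, w (det x a) < δ * (max (w (x 0)) (w (x 1)) * max (w (a 0)) (w (a 1)))

/-- `f = F / G` is a Belyi map of degree `n` over `K` which maps `{0, 1, ∞}` into itself: the
points above `0, 1, ∞` are among `0`, `1`, `∞` and the zeros of a polynomial of degree at most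
`n - 1` (by the formula of Riemann and Hurwitz a rational function of degree `n` has at least
`n + 2` points above `0, 1, ∞`, and exactly `n + 2` if and only if it is unramified outside of
them). -/
structure Belyi (F G : K[X]) (n : ℕ) : Prop where
  pos : 1 ≤ n
  coprime : IsCoprime F G
  degree : max F.natDegree G.natDegree = n
  points : ∃ R : K[X], R ≠ 0 ∧ R.natDegree ≤ n - 1 ∧
    ∃ M : ℕ, F * G * (F - G) ∣ (X * (X - 1) * R) ^ M

/-- The points `x` which are close to `a` at the places of `W` and whose cross ratio is `f(u)`,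
where `u` is close to `0` at the places of `W` and there are `e`, `y`, `z` in `K` with
`u = e y³`, `1 - u = (1 - e) z³` and `h(e) ≤ η h(x)`. -/
def Thin (W : Finset (AbsoluteValue K ℝ)) (δ η : ℝ) (F G : K[X]) (a b c : Fin 2 → K) :
    Set (Fin 2 → K) :=
  {x | Close W δ a x ∧ ∃ u : K, (∀ w ∈ W, w u < δ) ∧ crossRatio a b c x = F.eval u / G.eval u ∧
    ∃ e y z : K, u = e * y ^ 3 ∧ 1 - u = (1 - e) * z ^ 3 ∧ height ![e, 1] ≤ η * height x}

open Pool.Agent.H420.LC

theorem allPoints_iff : AllPoints K ↔ MP_4d5ce1_nt.ThinSetsSuffice.AllPoints K := Iff.rfl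

theorem inequality_iff (S : Finset (HeightOneSpectrum (𝓞 K))) {q : ℕ} (α : Fin q → Fin 2 → K)
    (T : Set (Fin 2 → K)) :
    Inequality S α T ↔ MP_4d5ce1_nt.ThinSetsSuffice.Inequality S α T := Iff.rfl

omit [NumberField K] in
/-- a common radius -/
theorem common_radius (W : Finset (AbsoluteValue K ℝ)) (P : AbsoluteValue K ℝ → K → Prop)
    (h : ∀ w ∈ W, ∃ δ : ℝ, 0 < δ ∧ ∀ t, w t < δ → P w t) :
    ∃ δ : ℝ, 0 < δ ∧ ∀ w ∈ W, ∀ t, w t < δ → P w t := by
  classical
  induction W using Finset.induction_on with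
  | empty => exact ⟨1, one_pos, fun w hw => absurd hw (Finset.notMem_empty w)⟩
  | insert a W _ ih =>
    obtain ⟨δ₁, h1, h2⟩ := ih fun w hw => h w (Finset.mem_insert_of_mem hw)
    obtain ⟨δ₂, h3, h4⟩ := h a (Finset.mem_insert_self a W)
    refine ⟨min δ₁ δ₂, lt_min h1 h3, fun w hw t ht => ?_⟩
    rcases Finset.mem_insert.1 hw with rfl | hw
    · exact h4 t (ht.trans_le (min_le_right _ _))
    · exact h2 w hw t (ht.trans_le (min_le_left _ _))

omit [NumberField K] in
/-- the points with small cross ratio are close to `a` -/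
theorem close_of_small {a b c : Fin 2 → K} (hac : wg a c ≠ 0) (hab : wg a b ≠ 0)
    (hbc : wg b c ≠ 0) (W : Finset (AbsoluteValue K ℝ)) {δ : ℝ} (hδ : 0 < δ) :
    ∃ δ' : ℝ, 0 < δ' ∧ ∀ t, (∀ w ∈ W, w t < δ') → Close W δ a (pt a b c t) := by
  have key : ∀ w ∈ W, ∃ δ' : ℝ, 0 < δ' ∧ ∀ t, w t < δ' →
      w (det (pt a b c t) a) < δ * (max (w (pt a b c t 0)) (w (pt a b c t 1)) *
        max (w (a 0)) (w (a 1))) := by
    intro w _
    have hca : wg c a ≠ 0 := by rw [wg_swap]; exact neg_ne_zero.2 hac
    obtain ⟨m, hm⟩ : ∃ m : ℝ, m = max (w (a 0)) (w (a 1)) := ⟨_, rfl⟩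
    obtain ⟨m', hm'⟩ : ∃ m : ℝ, m = max (w (c 0)) (w (c 1)) := ⟨_, rfl⟩
    have hm0 : 0 < m := by
      rw [hm, lt_max_iff]
      by_contra hcon
      rw [not_or, not_lt, not_lt] at hcon
      apply hac
      have e0 : a 0 = 0 := w.eq_zero.1 (le_antisymm hcon.1 (w.nonneg _))
      have e1 : a 1 = 0 := w.eq_zero.1 (le_antisymm hcon.2 (w.nonneg _))
      unfold wg
      rw [e0, e1]
      ring
    have hm'0 : 0 < m' := by
      rw [hm', lt_max_iff]
      by_contra hcon
      rw [not_or, not_lt, not_lt] at hcon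
      apply hac
      have e0 : c 0 = 0 := w.eq_zero.1 (le_antisymm hcon.1 (w.nonneg _))
      have e1 : c 1 = 0 := w.eq_zero.1 (le_antisymm hcon.2 (w.nonneg _))
      unfold wg
      rw [e0, e1]
      ring
    have hk : 0 < w (wg b c) := w.pos hbc
    obtain ⟨B, hB⟩ : ∃ B : ℝ, B = w (wg a b / wg a c * wg c a) := ⟨_, rfl⟩
    have hB0 : 0 < B := by
      rw [hB]
      exact w.pos (mul_ne_zero (div_ne_zero hab hac) hca)
    refine ⟨δ * (w (wg b c) / (2 * m') * m) / B, by positivity, fun t ht => ?_⟩
    rw [lt_div_iff₀ hB0] at ht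
    have e1 : det (pt a b c t) a = t * (wg a b / wg a c * wg c a) := wg_pt_a a b c t
    rw [e1, map_mul, ← hB, ← hm]
    refine ht.trans_le (mul_le_mul_of_nonneg_left (mul_le_mul_of_nonneg_right ?_ hm0.le) hδ.le)
    rw [div_le_iff₀ (by positivity)]
    have e2 : wg b c = pt a b c t 0 * c 1 - pt a b c t 1 * c 0 := (wg_pt_c hac t).symm
    calc w (wg b c) = w (pt a b c t 0 * c 1 - pt a b c t 1 * c 0) := by rw [← e2]
      _ ≤ w (pt a b c t 0 * c 1) + w (pt a b c t 1 * c 0) := by
          exact w.sub_le_add _ _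
      _ = w (pt a b c t 0) * w (c 1) + w (pt a b c t 1) * w (c 0) := by
          rw [map_mul, map_mul]
      _ ≤ max (w (pt a b c t 0)) (w (pt a b c t 1)) * m' +
          max (w (pt a b c t 0)) (w (pt a b c t 1)) * m' := by
          refine add_le_add (mul_le_mul (le_max_left _ _) (by rw [hm']; exact le_max_right _ _)
            (w.nonneg _) (le_max_of_le_left (w.nonneg _)))
            (mul_le_mul (le_max_right _ _) (by rw [hm']; exact le_max_left _ _)
            (w.nonneg _) (le_max_of_le_left (w.nonneg _)))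
      _ = _ := by ring
  obtain ⟨δ', h1, h2⟩ := common_radius W _ key
  exact ⟨δ', h1, fun t ht w hw => h2 w hw t (ht w hw)⟩

/-- **The inequality near one of the points suffices.** Let `K` be a number field, `S` a finite
set of finite places, `α_1, …, α_q` pairwise distinct points of `ℙ¹(K)` and `i₀, i₁, i₂` three
different indices (so `q ≥ 3`). Let `W` be a finite set of places of `K`, let `δ, η > 0`, and let
`f = F / G` be a Belyi map over `K` with `f(0) = 0` which maps `{0, 1, ∞}` into itself. Then Q1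
for `K` (all `S`, all `q`, all `α`, all `x`) is equivalent to the inequality for this `S` and
these `α_1, …, α_q` and only for the points `x` which are close to `α_{i₀}` at all places of `W`
and whose cross ratio is `f(u)`, where `u` is close to `0` at all places of `W` and `u = e y³`,
`1 - u = (1 - e) z³` with `h(e) ≤ η h(x)`. -/
theorem result (K : Type) [Field K] [NumberField K] (S : Finset (HeightOneSpectrum (𝓞 K)))
    {q : ℕ} (α : Fin q → Fin 2 → K) (hα : ∀ i j, i ≠ j → det (α i) (α j) ≠ 0)
    {i₀ i₁ i₂ : Fin q} (h01 : i₀ ≠ i₁) (h02 : i₀ ≠ i₂) (h12 : i₁ ≠ i₂)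
    (W : Finset (AbsoluteValue K ℝ)) (hW : ∀ w ∈ W, IsInfinitePlace w ∨ IsFinitePlace w)
    {δ η : ℝ} (hδ : 0 < δ) (hη : 0 < η) {F G : K[X]} {n : ℕ} (hFG : Belyi F G n)
    (h0 : F.eval 0 = 0) :
    AllPoints K ↔ Inequality S α (Thin W δ η F G (α i₀) (α i₁) (α i₂)) := by
  classical
  have hdist : ∀ i j, i ≠ j → wg (α i) (α j) ≠ 0 := hα
  have hne : ∀ l, α l ≠ 0 := by
    intro l h
    rcases eq_or_ne l i₀ with rfl | hl
    · apply hα _ _ h01
      rw [h]
      simp [det]
    · apply hα _ _ hl
      rw [h]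
      simp [det]
  have hf : BelFun (fun t : K => F.eval t / G.eval t) :=
    ⟨F, G, n, ⟨hFG.pos, hFG.coprime, hFG.degree, hFG.points⟩, h0, fun _ => rfl⟩
  have hR : ∀ w ∈ W, Reach w := by
    intro w hw
    rcases hW w hw with h | h
    · exact reach_isInfinitePlace h
    · exact reach_isFinitePlace h
  have hab := hdist _ _ h01
  have hac := hdist _ _ h02
  have hbc := hdist _ _ h12
  obtain ⟨δ', k1, k2⟩ := close_of_small hac hab hbc W hδ
  have hcr : ∀ t, crossRatio (α i₀) (α i₁) (α i₂) (pt (α i₀) (α i₁) (α i₂) t) = t :=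
    fun t => cr_pt hac hab hbc t
  refine ⟨fun h => ?_, fun h => ?_⟩
  · intro ε hε
    obtain ⟨C, hC⟩ := h S q α hne hα ε hε
    exact ⟨C, fun x _ => hC x (Set.mem_univ x)⟩
  · rw [inequality_iff] at h
    obtain ⟨C₁, hC₁⟩ := height_cr_le (α i₀) (α i₁) (α i₂)
    have hd0 : (0 : ℝ) < Module.finrank ℚ K := by exact_mod_cast Module.finrank_pos
    refine allPoints_of_ineq (ineq_of_both W hR k1 hδ (half_pos hη) hf ?_)
    refine ((ineq_of_inequality (X := {t : K | t ∈ Ball W δ' ∧ ∃ u ∈ Ball W δ,
      t = F.eval u / G.eval u ∧ ∃ e, CubeRel e u ∧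
      Height.logHeight₁ e ≤ η / 2 * Height.logHeight₁ t} ∩
      {t : K | 2 * |C₁| < Height.logHeight₁ t}) hdist h01 h02 h12 h ?_).union
      (ineq_bounded (2 * |C₁|))).mono ?_
    · rintro t ⟨⟨ht, u, hu, htu, e, ⟨y, z, h1, h2⟩, h4⟩, h5⟩
      have h5' : 2 * |C₁| < Height.logHeight₁ t := h5
      refine ⟨k2 t ht, u, hu, ?_, e, y, z, h1, h2, ?_⟩
      · rw [hcr]
        exact htu
      · have h6 := hC₁ (pt (α i₀) (α i₁) (α i₂) t)
        have h7 : cr (α i₀) (α i₁) (α i₂) (pt (α i₀) (α i₁) (α i₂) t) = t := hcr t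
        rw [h7] at h6
        have h8 := le_abs_self C₁
        unfold height
        rw [← Height.logHeight₁_eq_logHeight, ← mul_div_assoc]
        refine div_le_div_of_nonneg_right ?_ hd0.le
        have h9 : Height.logHeight₁ t / 2 ≤ Height.logHeight (pt (α i₀) (α i₁) (α i₂) t) := by
          linarith
        have h10 := mul_le_mul_of_nonneg_left h9 hη.le
        linarith
    · intro t ht
      rcases le_or_gt (Height.logHeight₁ t) (2 * |C₁|) with h1 | h1
      · exact Or.inr h1
      · exact Or.inl ⟨ht, h1⟩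

end Pool.Agent.Results.MP_4d5ce1_nt.NearOnePointSuffices
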