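import Mathlib
import Pool.Agent.H541.SX.Fin2
import Pool.Agent.H541.SX.FinQ

/-!
# Finite sets of rational points of the line: below the trivial exponent for the points near one of
# the points of the set (abc-triples with a small member, for example consecutive integers)

`D = {α_1, …, α_q}`, `q ≥ 3`, is a set of rational points of the projective line, `S` a finite set
of primes.  A point is given by coprime integral coordinates `x = (x_0, x_1)`; `ht x` is its
multiplicative height, `lf α x = a_0 x_1 - a_1 x_0`, `lamInf α x` is the local height at the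
infinite place and `tr S α x` the sum of the truncated local heights `λ⁽¹⁾_p(α, x)`, `p ∉ S`
(`λ⁽¹⁾_p(α, x) = log p` if `p ∣ lf α x`, otherwise `0`), all as in the problem.

We count the points `x` of height at most `B` which are close to the point `α_o` of `D`,
`λ_∞(α_o, x) ≥ (1 - t) h(x)`, and have `∑_i tr S α_i x ≤ (θ + δ) h(x)`.  For these points
`|lf α_o x| ≤ C B ^ t`, and if the radical of this integer (without the primes of `S`) is about
`B ^ ρ`, `ρ ≤ t`, then the radical of one of the `q - 1` integers `lf α_i x`, `i ≠ o`, is at most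
`B ^ ((θ + δ - ρ) / (q - 1))`.  So their number is at most `C B ^ ((θ + (q - 2) t) / (q - 1) + O(δ))`;
this is the trivial bound (if `t ≥ θ / q`, then `C B ^ (2 θ / q + O(δ))` is better).

The theorem: there is a power saving compared with this bound, for all `θ` in `(0, q - 1)`, uniformly
in `t`, `t₀ ≤ t ≤ θ / q`, with any `t₀ > 0`.  One can take `t₀ = 0` if `λ = 2 θ / (q - 1)` is in the
interval `(4 / 5, 2)`, and also for all other `λ` in `(0, 2)` which are not of the form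
`2 |G| / ∑_{i ∈ G} i` with a set `G` of two or more positive integers.  This includes `θ = q - 2`, as
in the inequality `(q - 2 - ε) h(x) ≤ N⁽¹⁾(x) + C` of the problem, for all `q ≥ 3`.  For `λ = 1` and
`t = δ = 1 / 40000` the exponent is `0.492`.

For `D = {0, 1, ∞}`, `q = 3`, `θ = 1` (`λ = 1`) this is about the abc conjecture: for `t ≤ 1 / 3` at
most `C X ^ ((1 + t) / 2 - σ)` coprime triples `a + b = c ≤ X` have `a ≤ c ^ t` and
`rad (a b c) ≤ c ^ (1 + δ)`; with `t = δ = 1 / 40000` at most `C X ^ 0.492`; for example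
`rad (n (n + 1)) ≤ n ^ (1 + δ)` for at most `C X ^ 0.492` of the `n ≤ X`.
-/

namespace Pool.Agent.Results.MP_4d5ce1_nt.NearPointSaving

open Finset

/-- the determinant of the coordinates of `α` and `x` -/
def lf (α x : ℤ × ℤ) : ℤ := α.1 * x.2 - α.2 * x.1

/-- the multiplicative height `max (|x_0|, |x_1|)` of a point with coprime coordinates -/
def ht (x : ℤ × ℤ) : ℕ := max x.1.natAbs x.2.natAbs

/-- the local height `λ_∞(α, x) = log (max (|x_0|, |x_1|) max (|a_0|, |a_1|) / |lf α x|)` -/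
noncomputable def lamInf (α x : ℤ × ℤ) : ℝ :=
  Real.log ((ht x : ℝ) * ht α / |(lf α x : ℝ)|)

/-- the sum over the primes outside `S` of the truncated local heights of `α` and `x` -/
noncomputable def tr (S : Finset ℕ) (α x : ℤ × ℤ) : ℝ :=
  ∑ p ∈ (lf α x).natAbs.primeFactors \ S, Real.log p

/-- `lam` is above `4 / 5`, or `lam ≠ 2 |G| / ∑_{i ∈ G} i` for all finite sets `G` of positive
integers with two or more elements -/
def Adm (lam : ℝ) : Prop :=
  4 / 5 < lam ∨
    ∀ G : Finset ℕ, 2 ≤ G.card → (∀ i ∈ G, 1 ≤ i) → lam * ∑ i ∈ G, (i : ℝ) ≠ 2 * G.card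

/-- the points `x` of height at most `B` outside `D`, with `λ_∞(α_o, x) ≥ (1 - t) h(x)` and
truncated counting function at most `(θ + δ) h(x)` -/
def Exc {q : ℕ} (S : Finset ℕ) (α : Fin q → ℤ × ℤ) (o : Fin q) (θ t δ B : ℝ) : Set (ℤ × ℤ) :=
  {x | IsCoprime x.1 x.2 ∧ (ht x : ℝ) ≤ B ∧ (∀ i, lf (α i) x ≠ 0) ∧
    (1 - t) * Real.log (ht x) ≤ lamInf (α o) x ∧
    ∑ i, tr S (α i) x ≤ (θ + δ) * Real.log (ht x)}

/-- **Theorem.**  Let `q ≥ 3`, `0 < θ < q - 1` and `t₀ ≥ 0`; if `t₀ = 0`, let `2 θ / (q - 1)` be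
admissible, for example `θ = q - 2`.  There are `δ > 0` and `σ > 0` such that for all sets
`D = {α_1, …, α_q}` of `q` rational points of the line, all finite sets `S` of primes, all `α_o` in
`D` and all `t` in `[t₀, θ / q]` there is `C` such that for all `B ≥ 1` there are at most
`C B ^ ((θ + (q - 2) t) / (q - 1) - σ)` points `x` of height at most `B` outside `D` with
`λ_∞(α_o, x) ≥ (1 - t) h(x)` and `∑_{v ∉ S ∪ {∞}} ∑_i λ⁽¹⁾_v(α_i, x) ≤ (θ + δ) h(x)`.  If
`2 θ / (q - 1) = 1` and `t = δ = 1 / 40000`, there are at most `C B ^ 0.492` of them. -/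
theorem result (q : ℕ) (hq : 3 ≤ q) (θ : ℝ) (hθ0 : 0 < θ) (hθ1 : θ < q - 1)
    (t₀ : ℝ) (ht₀ : 0 ≤ t₀) (hadm : 0 < t₀ ∨ Adm (2 * θ / ((q : ℝ) - 1))) :
    (∃ δ σ : ℝ, 0 < δ ∧ 0 < σ ∧
      ∀ α : Fin q → ℤ × ℤ, (∀ i j, i ≠ j → lf (α i) (α j) ≠ 0) →
      ∀ (S : Finset ℕ) (o : Fin q) (t : ℝ), t₀ ≤ t → t ≤ θ / q →
        ∃ C : ℝ, ∀ B : ℝ, 1 ≤ B → (Exc S α o θ t δ B).Finite ∧
          ((Exc S α o θ t δ B).ncard : ℝ) ≤
            C * B ^ ((θ + ((q : ℝ) - 2) * t) / ((q : ℝ) - 1) - σ)) ∧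
    (2 * θ / ((q : ℝ) - 1) = 1 →
      ∀ α : Fin q → ℤ × ℤ, (∀ i j, i ≠ j → lf (α i) (α j) ≠ 0) →
      ∀ (S : Finset ℕ) (o : Fin q), ∃ C : ℝ, ∀ B : ℝ, 1 ≤ B →
        (Exc S α o θ (1 / 40000) (1 / 40000) B).Finite ∧
          ((Exc S α o θ (1 / 40000) (1 / 40000) B).ncard : ℝ) ≤ C * B ^ (492 / 1000 : ℝ)) := by
  refine ⟨Pool.Agent.H541.SX.finset_pointsQ q hq θ hθ0 hθ1 t₀ ht₀ hadm, fun h1 α hα S o => ?_⟩
  have hqr : (3 : ℝ) ≤ q := by exact_mod_cast hq
  have hθ : θ = ((q : ℝ) - 1) / 2 := by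
    rw [div_eq_one_iff_eq (by linarith)] at h1
    linarith
  rw [hθ]
  exact Pool.Agent.H541.SX.finset_pointsX q hq α hα S o

end Pool.Agent.Results.MP_4d5ce1_nt.NearPointSaving
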